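import Mathlib

/-!
# The 2-rank of `D_{g,h}` can be smaller than the 2-rank of the translation design of `h`

On `F₂⁴` let `τ` be the map of order three which rotates the five lines of a spread, so that
`τ (τ y) = τ y + y`; for a suitable choice of the five rotations `τ` is not linear, and the identity is
a sum of six translates of `τ`.  Then `g (x, y) = x · y` and `h (x, y) = x · τ y` are bent functions
on `F₂⁸`, `g + h` is bent and `(g + h)^* = g^* + h^*`.  As `g` is a sum of six translates of `h`, all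
rows of the incidence matrix of `D_{g,h}` are sums of an even number of rows of the incidence
matrix of the translation design of `h`, and these sums form a proper subspace of its row space.
-/

namespace Pool.Agent.Results.MP_52c3fe_co.RankDrops

open Finset Matrix

/-- The Walsh transform of a Boolean function of `m` variables. -/
def walsh {m : ℕ} (f : (Fin m → ZMod 2) → ZMod 2) (u : Fin m → ZMod 2) : ℤ :=
  ∑ x, (-1) ^ (f x + u ⬝ᵥ x).val

/-- Bent functions. -/
def Bent {m : ℕ} (f : (Fin m → ZMod 2) → ZMod 2) : Prop := ∀ u, |walsh f u| = 2 ^ (m / 2)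

/-- `f'` is the dual of `f`. -/
def IsDual {m : ℕ} (f f' : (Fin m → ZMod 2) → ZMod 2) : Prop :=
  ∀ u, walsh f u = 2 ^ (m / 2) * (-1) ^ (f' u).val

/-- The incidence matrix of `D_{g,h}`. -/
def matM {m : ℕ} (g h : (Fin m → ZMod 2) → ZMod 2) :
    Matrix (Fin m → ZMod 2) (Fin m → ZMod 2) (ZMod 2) :=
  fun b x => g b + h (x + b) + (g + h) x

/-- The incidence matrix of the translation design of `h`. -/
def matN {m : ℕ} (h : (Fin m → ZMod 2) → ZMod 2) :
    Matrix (Fin m → ZMod 2) (Fin m → ZMod 2) (ZMod 2) :=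
  fun x y => h (x + y)

/-- The first four coordinates. -/
def lft (z : Fin 8 → ZMod 2) : Fin 4 → ZMod 2 := ![z 0, z 1, z 2, z 3]

/-- The last four coordinates. -/
def rgt (z : Fin 8 → ZMod 2) : Fin 4 → ZMod 2 := ![z 4, z 5, z 6, z 7]

/-- The rotation `τ`. -/
def tau (y : Fin 4 → ZMod 2) : Fin 4 → ZMod 2 :=
  ![y 1 + y 2 * y 0 + y 3 * y 0 + y 3 * y 2 * y 0,
    y 0 + y 1 + y 2 * y 1 + y 3 * y 1 + y 3 * y 2 * y 1,
    y 2 * y 0 + y 2 * y 1 + y 2 * y 1 * y 0 + y 3,
    y 2 + y 3 + y 3 * y 0 + y 3 * y 1 + y 3 * y 1 * y 0]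

/-- The function `g`. -/
def g (z : Fin 8 → ZMod 2) : ZMod 2 := lft z ⬝ᵥ rgt z

/-- The function `h`. -/
def h (z : Fin 8 → ZMod 2) : ZMod 2 := lft z ⬝ᵥ tau (rgt z)

lemma tau_tau : ∀ y : Fin 4 → ZMod 2, tau (tau y) = tau y + y := by
  decide +kernel

lemma tau_sum : ∀ y : Fin 4 → ZMod 2,
    tau (y + ![1, 0, 0, 0]) + tau (y + ![0, 1, 0, 0]) + tau (y + ![1, 1, 0, 0])
      + tau (y + ![0, 0, 1, 0]) + tau (y + ![0, 0, 0, 1]) + tau (y + ![0, 0, 1, 1]) = y := by
  decide +kernel

lemma tau_cubic : ∀ y : Fin 4 → ZMod 2,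
    tau (y + ![0, 0, 0, 0]) 2 + tau (y + ![1, 0, 0, 0]) 2 + tau (y + ![0, 1, 0, 0]) 2
      + tau (y + ![1, 1, 0, 0]) 2 + tau (y + ![0, 0, 1, 0]) 2 + tau (y + ![1, 0, 1, 0]) 2
      + tau (y + ![0, 1, 1, 0]) 2 + tau (y + ![1, 1, 1, 0]) 2 = 1 := by
  decide +kernel

lemma char_sum : ∀ c : Fin 4 → ZMod 2,
    (∑ x : Fin 4 → ZMod 2, (-1 : ℤ) ^ (x ⬝ᵥ c).val) = if c = 0 then 16 else 0 := by
  decide +kernel

lemma chi_add : ∀ a b : ZMod 2, (-1 : ℤ) ^ (a + b).val = (-1) ^ a.val * (-1) ^ b.val := by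
  decide

/-- The bijection between pairs of vectors of length four and vectors of length eight. -/
def pairEquiv : (Fin 4 → ZMod 2) × (Fin 4 → ZMod 2) ≃ (Fin 8 → ZMod 2) where
  toFun p := ![p.1 0, p.1 1, p.1 2, p.1 3, p.2 0, p.2 1, p.2 2, p.2 3]
  invFun z := (lft z, rgt z)
  left_inv := by
    rintro ⟨x, y⟩
    refine Prod.ext ?_ ?_
    · funext i
      fin_cases i <;> rfl
    · funext i
      fin_cases i <;> rfl
  right_inv := by
    intro z
    funext i
    fin_cases i <;> rfl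

lemma lft_pair (p : (Fin 4 → ZMod 2) × (Fin 4 → ZMod 2)) : lft (pairEquiv p) = p.1 :=
  congrArg Prod.fst (pairEquiv.left_inv p)

lemma rgt_pair (p : (Fin 4 → ZMod 2) × (Fin 4 → ZMod 2)) : rgt (pairEquiv p) = p.2 :=
  congrArg Prod.snd (pairEquiv.left_inv p)

lemma dot_split (u z : Fin 8 → ZMod 2) : u ⬝ᵥ z = lft u ⬝ᵥ lft z + rgt u ⬝ᵥ rgt z := by
  simp only [dotProduct, Fin.sum_univ_eight, Fin.sum_univ_four, lft, rgt]
  simp
  ring

lemma add_eq_zero_iff' (a b : Fin 4 → ZMod 2) : a + b = 0 ↔ a = b := by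
  constructor
  · intro h
    funext i
    have := congrFun h i
    exact CharTwo.add_eq_zero.1 this
  · rintro rfl
    exact CharTwo.add_self_eq_zero a

/-- Maiorana-McFarland functions and their duals. -/
lemma mm_dual (f : (Fin 8 → ZMod 2) → ZMod 2) (p r : (Fin 4 → ZMod 2) → (Fin 4 → ZMod 2))
    (hpr : ∀ y, r (p y) = y) (hrp : ∀ y, p (r y) = y) (hf : ∀ z, f z = lft z ⬝ᵥ p (rgt z)) :
    IsDual f fun w => rgt w ⬝ᵥ r (lft w) := by
  intro w
  unfold walsh
  rw [← pairEquiv.sum_comp, Fintype.sum_prod_type_right]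
  have key : ∀ y : Fin 4 → ZMod 2,
      (∑ x : Fin 4 → ZMod 2, (-1 : ℤ) ^ (f (pairEquiv (x, y)) + w ⬝ᵥ pairEquiv (x, y)).val)
      = (-1) ^ (rgt w ⬝ᵥ y).val * (if y = r (lft w) then 16 else 0) := by
    intro y
    have h1 : ∀ x : Fin 4 → ZMod 2, f (pairEquiv (x, y)) + w ⬝ᵥ pairEquiv (x, y)
        = rgt w ⬝ᵥ y + x ⬝ᵥ (p y + lft w) := by
      intro x
      rw [hf, dot_split, lft_pair, rgt_pair, dotProduct_add, dotProduct_comm (lft w) x]
      ring
    simp only [h1, chi_add]
    rw [← Finset.mul_sum, char_sum]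
    congr 1
    by_cases hy : y = r (lft w)
    · rw [if_pos hy, if_pos]
      rw [hy, hrp, add_eq_zero_iff']
    · rw [if_neg hy, if_neg]
      rw [add_eq_zero_iff']
      intro h2
      apply hy
      rw [← h2, hpr]
  simp only [key, mul_ite, mul_zero, Finset.sum_ite_eq', Finset.mem_univ, if_true]
  norm_num
  ring

lemma bent_of_dual {f f' : (Fin 8 → ZMod 2) → ZMod 2} (hf : IsDual f f') : Bent f := by
  intro u
  have h1 : |(-1 : ℤ) ^ (f' u).val| = 1 := by
    rw [abs_pow]
    simp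
  rw [hf u, abs_mul, h1, mul_one]
  norm_num

lemma dual_g : IsDual g fun w => rgt w ⬝ᵥ lft w :=
  mm_dual g id id (fun _ => rfl) (fun _ => rfl) (fun _ => rfl)

lemma tau3 (y : Fin 4 → ZMod 2) : tau (tau (tau y)) = y := by
  rw [tau_tau (tau y), tau_tau y, add_comm (tau y) y, add_assoc, CharTwo.add_self_eq_zero, add_zero]

lemma dual_h : IsDual h fun w => rgt w ⬝ᵥ tau (tau (lft w)) :=
  mm_dual h tau (fun y => tau (tau y)) tau3 tau3 (fun _ => rfl)

lemma dual_gh : IsDual (g + h) fun w => rgt w ⬝ᵥ tau (lft w) :=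
  mm_dual (g + h) (fun y => tau (tau y)) tau tau3 tau3 (fun z => by
    change g z + h z = _
    unfold g h
    rw [← dotProduct_add, tau_tau, add_comm])

/-! ### The ranks -/

/-- Rows of the incidence matrix of the translation design. -/
def row (b : Fin 8 → ZMod 2) : (Fin 8 → ZMod 2) → ZMod 2 := fun x => h (b + x)

/-- Embedding of vectors of length four in the last coordinates. -/
def em (c : Fin 4 → ZMod 2) : Fin 8 → ZMod 2 := ![0, 0, 0, 0, c 0, c 1, c 2, c 3]

lemma lft_add (a b : Fin 8 → ZMod 2) : lft (a + b) = lft a + lft b := by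
  funext i
  fin_cases i <;> rfl

lemma rgt_add (a b : Fin 8 → ZMod 2) : rgt (a + b) = rgt a + rgt b := by
  funext i
  fin_cases i <;> rfl

lemma lft_em (c : Fin 4 → ZMod 2) : lft (em c) = 0 := by
  funext i
  fin_cases i <;> rfl

lemma rgt_em (c : Fin 4 → ZMod 2) : rgt (em c) = c := by
  funext i
  fin_cases i <;> rfl

lemma h_em (z : Fin 8 → ZMod 2) (c : Fin 4 → ZMod 2) :
    h (z + em c) = lft z ⬝ᵥ tau (rgt z + c) := by
  unfold h
  rw [lft_add, rgt_add, lft_em, rgt_em, add_zero]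

/-- `g` is a sum of six translates of `h`. -/
lemma g_eq (z : Fin 8 → ZMod 2) :
    h (z + em ![1, 0, 0, 0]) + h (z + em ![0, 1, 0, 0]) + h (z + em ![1, 1, 0, 0])
      + h (z + em ![0, 0, 1, 0]) + h (z + em ![0, 0, 0, 1]) + h (z + em ![0, 0, 1, 1]) = g z := by
  simp only [h_em]
  simp only [← dotProduct_add]
  rw [tau_sum]
  rfl

/-- The span of the sums of two rows. -/
def D : Submodule (ZMod 2) ((Fin 8 → ZMod 2) → ZMod 2) :=
  Submodule.span (ZMod 2) (Set.range fun b => row b + row 0)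

lemma row_mem (b : Fin 8 → ZMod 2) : row b + row 0 ∈ D := Submodule.subset_span ⟨b, rfl⟩

lemma g_mem (t : Fin 8 → ZMod 2) : (fun x => g (x + t)) ∈ D := by
  have h1 : (fun x => g (x + t)) = (row (t + em ![1, 0, 0, 0]) + row 0)
      + (row (t + em ![0, 1, 0, 0]) + row 0) + (row (t + em ![1, 1, 0, 0]) + row 0)
      + (row (t + em ![0, 0, 1, 0]) + row 0) + (row (t + em ![0, 0, 0, 1]) + row 0)
      + (row (t + em ![0, 0, 1, 1]) + row 0) := by
    funext x
    rw [← g_eq (x + t)]
    simp only [Pi.add_apply, row]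
    have h2 : ∀ c, x + t + em c = t + em c + x := fun c => by abel
    simp only [h2, zero_add]
    have h3 : h x + h x = 0 := CharTwo.add_self_eq_zero _
    linear_combination (-3 : ZMod 2) * h3
  rw [h1]
  exact D.add_mem (D.add_mem (D.add_mem (D.add_mem (D.add_mem (row_mem _) (row_mem _)) (row_mem _))
    (row_mem _)) (row_mem _)) (row_mem _)

lemma one_mem : (fun _ => 1) ∈ D := by
  have h1 : (fun _ : Fin 8 → ZMod 2 => (1 : ZMod 2)) = (fun x => g (x + 0))
      + (fun x => g (x + ![1, 0, 0, 0, 0, 0, 0, 0])) + (fun x => g (x + ![0, 0, 0, 0, 1, 0, 0, 0]))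
      + (fun x => g (x + ![1, 0, 0, 0, 1, 0, 0, 0])) := by
    funext x
    simp only [Pi.add_apply, g, dotProduct, Fin.sum_univ_four, lft, rgt]
    simp
    have h2 : (2 : ZMod 2) = 0 := rfl
    linear_combination (-2 * x 0 * x 4 - x 0 - x 4 - 2 * x 1 * x 5 - 2 * x 2 * x 6
      - 2 * x 3 * x 7) * h2
  rw [h1]
  exact D.add_mem (D.add_mem (D.add_mem (g_mem _) (g_mem _)) (g_mem _)) (g_mem _)

lemma rowM_mem (b : Fin 8 → ZMod 2) : (matM g h) b ∈ D := by
  have h1 : (matM g h) b = (row b + row 0) + (fun x => g (x + 0)) + g b • (fun _ => 1) := by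
    funext x
    simp only [matM, Pi.add_apply, row, Pi.smul_apply, smul_eq_mul, zero_add, add_zero, mul_one]
    rw [add_comm x b]
    ring
  rw [h1]
  exact D.add_mem (D.add_mem (row_mem _) (g_mem _)) (D.smul_mem _ one_mem)

/-- A linear functional which is `1` on all rows. -/
def phi : ((Fin 8 → ZMod 2) → ZMod 2) →ₗ[ZMod 2] ZMod 2 where
  toFun v := ∑ s ∈ ({![0, 0, 0, 0], ![1, 0, 0, 0], ![0, 1, 0, 0], ![1, 1, 0, 0], ![0, 0, 1, 0],
    ![1, 0, 1, 0], ![0, 1, 1, 0], ![1, 1, 1, 0]} : Finset (Fin 4 → ZMod 2)),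
      (v (em s) + v (em s + ![0, 0, 1, 0, 0, 0, 0, 0]))
  map_add' := by
    intro v w
    rw [← Finset.sum_add_distrib]
    apply Finset.sum_congr rfl
    intro s _
    simp only [Pi.add_apply]
    ring
  map_smul' := by
    intro c v
    rw [RingHom.id_apply, smul_eq_mul, Finset.mul_sum]
    apply Finset.sum_congr rfl
    intro s _
    simp only [Pi.smul_apply, smul_eq_mul]
    ring

lemma phi_row (b : Fin 8 → ZMod 2) : phi (row b) = 1 := by
  have h1 : ∀ s : Fin 4 → ZMod 2, row b (em s) + row b (em s + ![0, 0, 1, 0, 0, 0, 0, 0])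
      = tau (rgt b + s) 2 := by
    intro s
    unfold row
    rw [h_em, ← add_assoc]
    unfold h
    rw [lft_add, rgt_add, lft_add, rgt_add, lft_em, rgt_em, add_zero]
    have h2 : lft ![0, 0, 1, 0, 0, 0, 0, 0] = ![0, 0, 1, 0] := rfl
    have h3 : rgt ![0, 0, 1, 0, 0, 0, 0, 0] = 0 := by
      funext i
      fin_cases i <;> rfl
    rw [h2, h3, add_zero, add_dotProduct]
    have h4 : (![0, 0, 1, 0] : Fin 4 → ZMod 2) ⬝ᵥ tau (rgt b + s) = tau (rgt b + s) 2 := by
      simp [dotProduct, Fin.sum_univ_four]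
    rw [h4, ← add_assoc, CharTwo.add_self_eq_zero, zero_add]
  unfold phi
  simp only [LinearMap.coe_mk, AddHom.coe_mk]
  simp only [h1]
  have h5 := tau_cubic (rgt b)
  rw [Finset.sum_insert (by decide), Finset.sum_insert (by decide), Finset.sum_insert (by decide),
    Finset.sum_insert (by decide), Finset.sum_insert (by decide), Finset.sum_insert (by decide),
    Finset.sum_insert (by decide), Finset.sum_singleton]
  linear_combination h5

lemma rank_lt : (matM g h).rank < (matN h).rank := by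
  rw [Matrix.rank_eq_finrank_span_row, Matrix.rank_eq_finrank_span_row]
  have h1 : Submodule.span (ZMod 2) (Set.range (matM g h).row) ≤ D := by
    rw [Submodule.span_le]
    rintro _ ⟨b, rfl⟩
    exact rowM_mem b
  have h2 : D < Submodule.span (ZMod 2) (Set.range (matN h).row) := by
    have hle : D ≤ Submodule.span (ZMod 2) (Set.range (matN h).row) := by
      unfold D
      rw [Submodule.span_le]
      rintro _ ⟨b, rfl⟩
      exact Submodule.add_mem _ (Submodule.subset_span ⟨b, rfl⟩) (Submodule.subset_span ⟨0, rfl⟩)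
    refine lt_of_le_of_ne hle ?_
    intro heq
    have hmem : row 0 ∈ D := by
      rw [heq]
      exact Submodule.subset_span ⟨0, rfl⟩
    have hker : D ≤ LinearMap.ker phi := by
      unfold D
      rw [Submodule.span_le]
      rintro _ ⟨b, rfl⟩
      change phi (row b + row 0) = 0
      rw [map_add, phi_row, phi_row]
      rfl
    have := hker hmem
    rw [LinearMap.mem_ker, phi_row] at this
    exact one_ne_zero this
  exact lt_of_le_of_lt (Submodule.finrank_mono h1) (Submodule.finrank_lt_finrank_of_lt h2)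

/-- There are bent functions `g, h` of eight variables such that `g + h` is bent, the dual of `g + h`
is the sum of the duals, and `D_{g,h}` has smaller 2-rank than the translation design of `h`. -/
theorem result : ∃ g h g' h' : (Fin 8 → ZMod 2) → ZMod 2, Bent g ∧ Bent h ∧ Bent (g + h) ∧
    IsDual g g' ∧ IsDual h h' ∧ IsDual (g + h) (g' + h') ∧ (matM g h).rank < (matN h).rank := by
  refine ⟨g, h, _, _, bent_of_dual dual_g, bent_of_dual dual_h, bent_of_dual dual_gh, dual_g,
    dual_h, ?_, rank_lt⟩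
  have h1 : ((fun w : Fin 8 → ZMod 2 => rgt w ⬝ᵥ lft w) + fun w => rgt w ⬝ᵥ tau (tau (lft w)))
      = fun w => rgt w ⬝ᵥ tau (lft w) := by
    funext w
    change rgt w ⬝ᵥ lft w + rgt w ⬝ᵥ tau (tau (lft w)) = _
    rw [tau_tau, ← dotProduct_add, add_comm (tau (lft w)), ← add_assoc, CharTwo.add_self_eq_zero,
      zero_add]
  rw [h1]
  exact dual_gh

end Pool.Agent.Results.MP_52c3fe_co.RankDrops
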